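import Pool.Agent.R956.V2
import Pool.Agent.R956.K11

/-!
The non-intersection probability `P_n = a_{2n} / a_n²` of two `n`-step self-avoiding walks on the
square, the triangular and the honeycomb lattice: by Kesten's inequality its exponent along a set of
lengths with gaps `o(√(n log n))`, and its asymptotic form along a set of even lengths with gaps
`o(√n)`, determine `P_n` and `a_n` at all lengths; the sequence `P_n` is locally geometric at most
lengths.
-/

set_option autoImplicit false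

namespace Pool.Agent.Results.MP_8c6f77_pr.DoublingSparse

open Filter Topology

/-- the three lattices -/
inductive Lattice where
  | square
  | triangular
  | honeycomb

/-- adjacency; the triangular lattice in a basis of unit vectors with angle `π/3`, the honeycomb
lattice as a brick wall -/
def Adj : Lattice → ℤ × ℤ → ℤ × ℤ → Prop
  | .square => fun p q => |p.1 - q.1| + |p.2 - q.2| = 1
  | .triangular => fun p q =>
      q - p ∈ ({(1, 0), (-1, 0), (0, 1), (0, -1), (1, -1), (-1, 1)} : Set (ℤ × ℤ))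
  | .honeycomb => fun p q =>
      q - p = (1, 0) ∨ q - p = (-1, 0) ∨
      (q - p = (0, 1) ∧ Even (p.1 + p.2)) ∨
      (q - p = (0, -1) ∧ Even (q.1 + q.2))

/-- the number of `n`-step self-avoiding walks from the origin -/
noncomputable def a (L : Lattice) (n : ℕ) : ℕ :=
  Set.ncard {f : Fin (n + 1) → ℤ × ℤ | f 0 = 0 ∧ Function.Injective f ∧
    ∀ i : Fin n, Adj L (f i.castSucc) (f i.succ)}

/-- the connective constant -/
noncomputable def mu (L : Lattice) : ℝ :=
  ⨅ n : {n : ℕ // 1 ≤ n}, ((a L n.1 : ℝ) ^ ((1 : ℝ) / (n.1 : ℝ)))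

/-- the non-intersection probability of two independent `n`-step walks, `a_{2n} / a_n²` -/
noncomputable def P (L : Lattice) (n : ℕ) : ℝ := (a L (2 * n) : ℝ) / (a L n : ℝ) ^ 2

/-- the constant of the comparison of consecutive lengths: `9 / μ²` for the square lattice,
`4 / μ²` for the honeycomb lattice and `1` for the triangular lattice -/
noncomputable def M : Lattice → ℝ
  | .square => (3 / mu .square) ^ 2
  | .triangular => 1
  | .honeycomb => (2 / mu .honeycomb) ^ 2

open Pool.Agent.R956 in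
theorem facts (L : Lattice) : ∃ K β : ℝ, M L = β ^ 2 ∧ β ^ 2 < 1.53 ∧
    Pool.Agent.Y943.SL.Wk (fun n => (a L n : ℝ)) (mu L) ∧
    V1.Sq (fun n => (a L n : ℝ) / mu L ^ n) K β := by
  cases L with
  | square =>
    obtain ⟨h0, h1, h2, K, h⟩ := V2.sqr (a .square) (fun n => rfl) (mu .square) rfl
    exact ⟨K, 3 / mu .square, rfl, h2,
      (Pool.Agent.Y943.SL.wk_sq (a .square) (fun n => rfl) (mu .square) rfl).1, h⟩
  | triangular =>
    obtain ⟨K, h⟩ := V2.tri (a .triangular) (fun n => rfl) (mu .triangular) rfl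
    exact ⟨K, 1, by rw [one_pow]; rfl, by norm_num,
      (Pool.Agent.Y943.SL.wk_tri (a .triangular) (fun n => rfl) (mu .triangular) rfl).1, h⟩
  | honeycomb =>
    obtain ⟨h0, h1, h2, K, h⟩ := V2.hex (a .honeycomb) (fun n => rfl) (mu .honeycomb) rfl
    exact ⟨K, 2 / mu .honeycomb, rfl, by linarith,
      (Pool.Agent.Y943.SL.wk_hex (a .honeycomb) (fun n => rfl) (mu .honeycomb) rfl).1, h⟩

open Pool.Agent.R956 in
lemma P_eq (L : Lattice) (n : ℕ) : P L n = V1.P (fun n => (a L n : ℝ) / mu L ^ n) n := by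
  obtain ⟨K, β, -, -, W, h⟩ := facts L
  unfold P V1.P
  have hμ := W.hμ
  have h1 : (0 : ℝ) < a L n := W.cpos n
  have h2 := pow_pos hμ n
  show (a L (2 * n) : ℝ) / (a L n : ℝ) ^ 2 = (a L (2 * n) : ℝ) / mu L ^ (2 * n) /
    ((a L n : ℝ) / mu L ^ n) ^ 2
  rw [show 2 * n = n + n by ring, pow_add]
  field_simp

/-- every interval `[n, n + δ √n]`, `n` large, meets `S`, for each `δ > 0` -/
def Gaps (S : Set ℕ) : Prop :=
  ∀ δ : ℝ, 0 < δ → ∀ᶠ n : ℕ in atTop, ∃ m ∈ S, n ≤ m ∧ (m : ℝ) ≤ n + δ * Real.sqrt n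

/-- the gaps of `S` are `o(√(n log n))` -/
def LogGaps (S : Set ℕ) : Prop :=
  ∀ δ : ℝ, 0 < δ → ∀ᶠ n : ℕ in atTop, ∃ m ∈ S, n ≤ m ∧
    (m : ℝ) ≤ n + δ * Real.sqrt (n * Real.log n)

/-- **Theorem.** Let `a_n` be the number of `n`-step self-avoiding walks from the origin on the
square, the triangular or the honeycomb lattice, `μ = inf a_n^(1/n)`, `P_n = a_{2n} / a_n²` and
`M = 9 / μ²`, `1`, `4 / μ²` for these three lattices; `1 ≤ M < 1.53`.
(1) There is `K` such that `∑_{N ≤ n < 2N} |log (P_{n+4} P_n / P_{n+2}²)| ≤ K` for all large `N`.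
(2) There is `K` such that for every `η > 0` and all large `N`, all but at most `η N` of the numbers
`n ∈ [N, 2N)` satisfy `|log (P_{n+2j} / P_n) - j log (P_{n+2} / P_n)| ≤ (K / η) j² / N` for all `j`
with `2 j ≤ N`.
(3) If `P_n = n^(-α + o(1))` along a set of lengths with gaps `o(√(n log n))`, then
`P_n = n^(-α + o(1))` and `a_n = μ^n n^(α + o(1))` along all `n`.
(4) If `P_n n^α → B > 0` along a set of even numbers with gaps `o(√n)`, then `P_n n^α → B` and
`a_n / (μ^n n^α) → 2^α / B` along all even `n`, and for every `ε > 0` and all large `n` of both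
parities `P_n n^α` is between `B / (M + ε)` and `(M + ε) B`, and `a_n / (μ^n n^α)` between
`(2^α / B) / (M + ε)` and `(M + ε) (2^α / B)`. -/
theorem result (L : Lattice) : 0 < mu L ∧ 1 ≤ M L ∧ M L < 1.53 ∧
    (∃ K : ℝ, 0 ≤ K ∧ ∀ᶠ N : ℕ in atTop, ∑ n ∈ Finset.Ico N (2 * N),
      |Real.log (P L (n + 4) * P L n / P L (n + 2) ^ 2)| ≤ K) ∧
    (∃ K : ℝ, 0 < K ∧ ∀ η : ℝ, 0 < η → ∀ᶠ N : ℕ in atTop,
      ({n : ℕ | N ≤ n ∧ n < 2 * N ∧ ∃ j : ℕ, 2 * j ≤ N ∧ K / η * (j : ℝ) ^ 2 / N <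
        |Real.log (P L (n + 2 * j) / P L n) - j * Real.log (P L (n + 2) / P L n)|}.ncard : ℝ) ≤
      η * N) ∧
    (∀ (S : Set ℕ) (α : ℝ), LogGaps S →
      Tendsto (fun n : ℕ => Real.log (P L n) / Real.log n) (atTop ⊓ 𝓟 S) (𝓝 (-α)) →
      Tendsto (fun n : ℕ => Real.log (P L n) / Real.log n) atTop (𝓝 (-α)) ∧
      Tendsto (fun n : ℕ => Real.log ((a L n : ℝ) / mu L ^ n) / Real.log n) atTop (𝓝 α)) ∧
    (∀ (S : Set ℕ) (α B : ℝ), (∀ m ∈ S, Even m) → Gaps S → 0 < B →
      Tendsto (fun n : ℕ => P L n * (n : ℝ) ^ α) (atTop ⊓ 𝓟 S) (𝓝 B) →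
      Tendsto (fun n : ℕ => P L n * (n : ℝ) ^ α) (atTop ⊓ 𝓟 {n | Even n}) (𝓝 B) ∧
      Tendsto (fun n : ℕ => (a L n : ℝ) / (mu L ^ n * (n : ℝ) ^ α)) (atTop ⊓ 𝓟 {n | Even n})
        (𝓝 (2 ^ α / B)) ∧
      ∀ ε : ℝ, 0 < ε → ∀ᶠ n : ℕ in atTop,
        (B / (M L + ε) ≤ P L n * (n : ℝ) ^ α ∧ P L n * (n : ℝ) ^ α ≤ (M L + ε) * B) ∧
        (2 ^ α / B) / (M L + ε) ≤ (a L n : ℝ) / (mu L ^ n * (n : ℝ) ^ α) ∧
        (a L n : ℝ) / (mu L ^ n * (n : ℝ) ^ α) ≤ (M L + ε) * (2 ^ α / B)) := by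
  obtain ⟨K, β, hM, hM2, W, S⟩ := facts L
  have hβ := S.hβ
  have hP : ∀ n, P L n = Pool.Agent.R956.V1.P (fun n => (a L n : ℝ) / mu L ^ n) n := P_eq L
  have hpos : ∀ n, 0 < P L n := fun n => by rw [hP]; exact Pool.Agent.R956.V1.P_pos S n
  have hbv : ∀ s : ℕ, s ≤ 1 → Pool.Agent.R956.K6.Bv (fun k => Real.log (P L (2 * k + s))) :=
    fun s hs => Pool.Agent.R956.K8.bv_P W hs
  have hev := Filter.Eventually.of_forall (f := atTop) hpos
  refine ⟨W.hμ, by rw [hM]; nlinarith, by rw [hM]; exact hM2,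
    Pool.Agent.R956.K9.tv hev hbv, Pool.Agent.R956.K7.lin hev hbv, ?_, ?_⟩
  · intro T α hT h
    have h1 := Pool.Agent.R956.K11.expo W hT h
    have h2 : Tendsto (fun n : ℕ => Real.log (P L n) / Real.log n) atTop (𝓝 (-α)) := by
      have h3 : Tendsto (fun n : ℕ => 2 * n) atTop atTop :=
        tendsto_id.const_mul_atTop' (by norm_num)
      have h4 : Tendsto (fun n : ℕ => Real.log ((2 * n : ℕ) : ℝ) / Real.log (n : ℝ)) atTop
          (𝓝 1) := by
        simpa using Pool.Agent.R956.K3.log_two_tend 0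
      have h5 := ((h1.comp h3).mul h4).sub (h1.const_mul 2)
      rw [show α * 1 - 2 * α = -α by ring] at h5
      refine h5.congr' ?_
      filter_upwards [eventually_ge_atTop 3] with n hn
      have hl := Pool.Agent.R956.K1.log_scale hn
      have hl2 : 1 ≤ Real.log ((2 * n : ℕ) : ℝ) :=
        Pool.Agent.R956.K1.log_scale (show 3 ≤ 2 * n by omega)
      have e : Real.log (P L n) = _ := Pool.Agent.R956.K8.log_P W n
      rw [e]
      simp only [Function.comp_apply]
      field_simp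
      ring
    exact ⟨h2, h1⟩
  · intro T α B hev' hT hB h
    obtain ⟨h1, h2⟩ := Pool.Agent.R956.K11.form W hev' hT hB h
    have key : ∀ (g : ℕ → ℝ) (D : ℝ), Tendsto (fun n : ℕ => g (2 * n)) atTop (𝓝 D) →
        Tendsto g (atTop ⊓ 𝓟 {n | Even n}) (𝓝 D) := by
      intro g D hg
      rw [Metric.tendsto_nhds] at hg ⊢
      intro δ hδ
      rw [eventually_inf_principal]
      obtain ⟨N, hN⟩ := eventually_atTop.mp (hg δ hδ)
      filter_upwards [eventually_ge_atTop (2 * N)] with n hn he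
      obtain ⟨j, hj⟩ := he
      have e : n = 2 * j := by omega
      rw [e]
      exact hN j (by omega)
    refine ⟨key _ _ h2, key _ _ ?_, fun ε hε => ?_⟩
    · refine h1.congr fun n => ?_
      rw [div_div]
    · have h3 : Tendsto (fun k : ℕ => 2 * k) atTop atTop :=
        tendsto_id.const_mul_atTop' (by norm_num)
      have h4 : Tendsto (fun k : ℕ => (((2 * (k + 1) : ℕ) : ℝ) - (2 * k : ℕ)) *
          Pool.Agent.R956.D2.f (2 * k)) atTop (𝓝 0) := by
        have h5 := (Pool.Agent.R956.D2.f_tendsto.comp h3).const_mul 2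
        rw [mul_zero] at h5
        refine h5.congr fun k => ?_
        simp only [Function.comp_apply]
        push_cast
        ring
      filter_upwards [Pool.Agent.R956.V1.amp S h3 h4 hB (by
        refine h2.congr fun k => ?_
        rw [← hP]
        rfl) hε] with n hn
      rw [← hP, ← hM, div_div (a L n : ℝ)] at hn
      exact hn

end Pool.Agent.Results.MP_8c6f77_pr.DoublingSparse
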