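import Pool.Agent.H726.AL.Pair

/-!
Pairs of mutually avoiding self-avoiding walks on the square lattice: pointwise ratios for the law
of the separation of their centres of mass, jointly with both end points.
-/

set_option autoImplicit false

namespace Pool.Agent.Results.MP_8c6f77_pr.SeparationRatio

/-- the site number `n` of a path with sites number `0, ..., 2 n` -/
def mid (n : ℕ) : Fin (2 * n + 1) := ⟨n, by omega⟩

/-- `ω` is a self-avoiding path with `2 n` steps on `ℤ²` whose middle site is the origin; with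
`w_k = ω_(n-k)` and `w'_k = ω_(n+k)` these are the pairs `(w, w')` of `n`-step self-avoiding walks
from the origin for which `w{1..n}` and `w'{0..n}` are disjoint -/
def IsPair (n : ℕ) (ω : Fin (2 * n + 1) → ℤ × ℤ) : Prop :=
  ω (mid n) = (0, 0) ∧
  (∀ i : Fin (2 * n), |(ω i.succ).1 - (ω i.castSucc).1| + |(ω i.succ).2 - (ω i.castSucc).2| = 1) ∧
  Function.Injective ω

/-- separation: the sum of the first coordinates of the sites of `w'` minus the sum of the first
coordinates of the sites of `w` -/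
def sep (n : ℕ) (ω : Fin (2 * n + 1) → ℤ × ℤ) : ℤ :=
  ∑ k : Fin (2 * n + 1), (if n < (k : ℕ) then (ω k).1 else if (k : ℕ) < n then -(ω k).1 else 0)

/-- `p n T a`: probability, for the uniform pair of mutually avoiding `n`-step walks, that the
pair of end points lies in `T` and the separation is `a` -/
noncomputable def p (n : ℕ) (T : Set ((ℤ × ℤ) × (ℤ × ℤ))) (a : ℤ) : ℝ :=
  ({ω | IsPair n ω ∧ ((ω 0, ω (Fin.last _)) ∈ T ∧ sep n ω = a)}.ncard : ℝ) /
    ({ω | IsPair n ω}.ncard : ℝ)

/-- **Theorem.** There are `K, c > 0` such that for all large `n`, all sets `T` of pairs of end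
points and all neighbouring integers `a, b` with `p n T a ≥ exp (- c n)`:
`|p n T b - p n T a| ≤ K √(log (n / p n T a) / n) p n T a`. -/
theorem result : ∃ K c : ℝ, ∃ n₀ : ℕ, 0 < K ∧ 0 < c ∧ ∀ n : ℕ, n₀ ≤ n →
    ∀ T : Set ((ℤ × ℤ) × (ℤ × ℤ)), ∀ a b : ℤ, (b = a + 1 ∨ a = b + 1) →
    Real.exp (-(c * n)) ≤ p n T a →
    |p n T b - p n T a| ≤ K * Real.sqrt (Real.log (n / p n T a) / n) * p n T a := by
  obtain ⟨K, c, n₀, hK, hc, h⟩ := H726.AL.Pair.main
  refine ⟨K, c, n₀, hK, hc, fun n hn T a b hab hp => ?_⟩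
  have e : ∀ a : ℤ, p n T a =
      (((H726.AL.Pair.XP n T).filter (fun w => H726.AL.Pair.sep n w = a)).card : ℝ) /
        ((Pool.Agent.H976R2.SW (2 * n)).card : ℝ) := by
    intro a
    have h1 := H726.AL.Pair.two_cnt n T a
    have h2 := H726.AL.Pair.two_all n
    rw [← h1, ← h2]
    rfl
  rw [e a] at hp ⊢
  rw [e b]
  have hcp : (0 : ℝ) < ((Pool.Agent.H976R2.SW (2 * n)).card : ℝ) := H726.AL.CM.card_SW_pos (2 * n)
  have h1 := h n hn T a b hab hp
  rw [← sub_div, abs_div, abs_of_pos hcp, mul_div_assoc', div_le_div_iff_of_pos_right hcp]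
  exact h1

end Pool.Agent.Results.MP_8c6f77_pr.SeparationRatio
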