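import Pool.Agent.R956.V2

/-!
The non-intersection probability `P_n = a_{2n} / a_n²` of two `n`-step self-avoiding walks on the
square, the triangular and the honeycomb lattice at nearby lengths `n`: its exponent, and its
asymptotic form, along a sparse sequence of lengths determine those of `P_n` and of `a_n` along all
lengths.
-/

set_option autoImplicit false

namespace Pool.Agent.Results.MP_8c6f77_pr.SparseLengths

open Filter Topology

/-- the three lattices -/
inductive Lattice where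
  | square
  | triangular
  | honeycomb

/-- adjacency; the triangular lattice in a basis of unit vectors with angle `π/3`, the honeycomb
lattice as a brick wall -/
def Adj : Lattice → ℤ × ℤ → ℤ × ℤ → Prop
  | .square => fun p q => |p.1 - q.1| + |p.2 - q.2| = 1
  | .triangular => fun p q =>
      q - p ∈ ({(1, 0), (-1, 0), (0, 1), (0, -1), (1, -1), (-1, 1)} : Set (ℤ × ℤ))
  | .honeycomb => fun p q =>
      q - p = (1, 0) ∨ q - p = (-1, 0) ∨
      (q - p = (0, 1) ∧ Even (p.1 + p.2)) ∨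
      (q - p = (0, -1) ∧ Even (q.1 + q.2))

/-- the number of `n`-step self-avoiding walks from the origin -/
noncomputable def a (L : Lattice) (n : ℕ) : ℕ :=
  Set.ncard {f : Fin (n + 1) → ℤ × ℤ | f 0 = 0 ∧ Function.Injective f ∧
    ∀ i : Fin n, Adj L (f i.castSucc) (f i.succ)}

/-- the connective constant -/
noncomputable def mu (L : Lattice) : ℝ :=
  ⨅ n : {n : ℕ // 1 ≤ n}, ((a L n.1 : ℝ) ^ ((1 : ℝ) / (n.1 : ℝ)))

/-- the non-intersection probability of two independent `n`-step walks, `a_{2n} / a_n²` -/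
noncomputable def P (L : Lattice) (n : ℕ) : ℝ := (a L (2 * n) : ℝ) / (a L n : ℝ) ^ 2

/-- the constant of the comparison of consecutive lengths: `9 / μ²` for the square lattice,
`4 / μ²` for the honeycomb lattice and `1` for the triangular lattice -/
noncomputable def M : Lattice → ℝ
  | .square => (3 / mu .square) ^ 2
  | .triangular => 1
  | .honeycomb => (2 / mu .honeycomb) ^ 2

open Pool.Agent.R956 in
theorem facts (L : Lattice) : ∃ K β : ℝ, M L = β ^ 2 ∧ β ^ 2 < 1.53 ∧
    Pool.Agent.Y943.SL.Wk (fun n => (a L n : ℝ)) (mu L) ∧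
    V1.Sq (fun n => (a L n : ℝ) / mu L ^ n) K β := by
  cases L with
  | square =>
    obtain ⟨h0, h1, h2, K, h⟩ := V2.sqr (a .square) (fun n => rfl) (mu .square) rfl
    exact ⟨K, 3 / mu .square, rfl, h2,
      (Pool.Agent.Y943.SL.wk_sq (a .square) (fun n => rfl) (mu .square) rfl).1, h⟩
  | triangular =>
    obtain ⟨K, h⟩ := V2.tri (a .triangular) (fun n => rfl) (mu .triangular) rfl
    exact ⟨K, 1, by rw [one_pow]; rfl, by norm_num,
      (Pool.Agent.Y943.SL.wk_tri (a .triangular) (fun n => rfl) (mu .triangular) rfl).1, h⟩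
  | honeycomb =>
    obtain ⟨h0, h1, h2, K, h⟩ := V2.hex (a .honeycomb) (fun n => rfl) (mu .honeycomb) rfl
    exact ⟨K, 2 / mu .honeycomb, rfl, by linarith,
      (Pool.Agent.Y943.SL.wk_hex (a .honeycomb) (fun n => rfl) (mu .honeycomb) rfl).1, h⟩

open Pool.Agent.R956 in
lemma P_eq (L : Lattice) (n : ℕ) : P L n = V1.P (fun n => (a L n : ℝ) / mu L ^ n) n := by
  obtain ⟨K, β, -, -, W, h⟩ := facts L
  unfold P V1.P
  have hμ := W.hμ
  have h1 : (0 : ℝ) < a L n := W.cpos n
  have h2 := pow_pos hμ n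
  show (a L (2 * n) : ℝ) / (a L n : ℝ) ^ 2 = (a L (2 * n) : ℝ) / mu L ^ (2 * n) /
    ((a L n : ℝ) / mu L ^ n) ^ 2
  rw [show 2 * n = n + n by ring, pow_add]
  field_simp

/-- **Theorem.** Let `a_n` be the number of `n`-step self-avoiding walks from the origin on the
square, the triangular or the honeycomb lattice, `μ = inf a_n^(1/n)`, `P_n = a_{2n} / a_n²` and
`M = 9 / μ²`, `1`, `4 / μ²` for these three lattices; `1 ≤ M < 1.53`.
(1) `|P_{n+2} / P_n - 1| ≤ K log n / √n`, and for every `ε > 0` and all large `n`, `P_{n+1} / P_n`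
is between `1 / (M + ε)` and `M + ε`.
(2) Let `s_k → ∞` be integers, of any parities, with `(s_{k+1} - s_k) / √(s_k) → 0`. If
`P_n = n^(-α + o(1))` along `n = s_k`, then `P_n = n^(-α + o(1))` and `a_n = μ^n n^(α + o(1))`.
(3) Let `s_k → ∞` be integers, of any parities, with `(s_{k+1} - s_k) log s_k / √(s_k) → 0`. If
`P_n n^α → B > 0` along `n = s_k`, then for every `ε > 0` and all large `n`, `P_n n^α` is
between `B / (M + ε)` and `(M + ε) B`, and `a_n / (μ^n n^α)` between `(2^α / B) / (M + ε)` and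
`(M + ε) (2^α / B)`.
(4) If moreover all `s_k` are even, then `P_n n^α → B` and `a_n / (μ^n n^α) → 2^α / B` along all even
`n`. -/
theorem result (L : Lattice) : 0 < mu L ∧ 1 ≤ M L ∧ M L < 1.53 ∧
    ((∃ K : ℝ, ∀ n : ℕ, 2 ≤ n →
        |P L (n + 2) / P L n - 1| ≤ K * (Real.log n / Real.sqrt n)) ∧
      ∀ ε : ℝ, 0 < ε → ∀ᶠ n : ℕ in atTop, 0 < P L n ∧ 1 / (M L + ε) ≤ P L (n + 1) / P L n ∧
        P L (n + 1) / P L n ≤ M L + ε) ∧
    (∀ s : ℕ → ℕ, Tendsto s atTop atTop →
      Tendsto (fun k => ((s (k + 1) : ℝ) - s k) / Real.sqrt (s k)) atTop (𝓝 0) →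
      ∀ α : ℝ, Tendsto (fun k => Real.log (P L (s k)) / Real.log (s k)) atTop (𝓝 (-α)) →
      Tendsto (fun n : ℕ => Real.log (P L n) / Real.log n) atTop (𝓝 (-α)) ∧
      Tendsto (fun n : ℕ => Real.log ((a L n : ℝ) / mu L ^ n) / Real.log n) atTop (𝓝 α)) ∧
    (∀ s : ℕ → ℕ, Tendsto s atTop atTop →
      Tendsto (fun k => ((s (k + 1) : ℝ) - s k) * (Real.log (s k) / Real.sqrt (s k)))
        atTop (𝓝 0) →
      ∀ α B : ℝ, 0 < B → Tendsto (fun k => P L (s k) * (s k : ℝ) ^ α) atTop (𝓝 B) →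
      (∀ ε : ℝ, 0 < ε → ∀ᶠ n : ℕ in atTop,
        (B / (M L + ε) ≤ P L n * (n : ℝ) ^ α ∧ P L n * (n : ℝ) ^ α ≤ (M L + ε) * B) ∧
        (2 ^ α / B) / (M L + ε) ≤ (a L n : ℝ) / (mu L ^ n * (n : ℝ) ^ α) ∧
        (a L n : ℝ) / (mu L ^ n * (n : ℝ) ^ α) ≤ (M L + ε) * (2 ^ α / B)) ∧
      ((∀ k, Even (s k)) →
        Tendsto (fun n : ℕ => P L n * (n : ℝ) ^ α) (atTop ⊓ 𝓟 {n | Even n}) (𝓝 B) ∧
        Tendsto (fun n : ℕ => (a L n : ℝ) / (mu L ^ n * (n : ℝ) ^ α)) (atTop ⊓ 𝓟 {n | Even n})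
          (𝓝 (2 ^ α / B)))) := by
  obtain ⟨K, β, hM, hM2, W, S⟩ := facts L
  have hβ := S.hβ
  have hP : ∀ n, P L n = Pool.Agent.R956.V1.P (fun n => (a L n : ℝ) / mu L ^ n) n := P_eq L
  have hpos : ∀ n, 0 < P L n := fun n => by rw [hP]; exact Pool.Agent.R956.V1.P_pos S n
  refine ⟨W.hμ, by rw [hM]; nlinarith, by rw [hM]; exact hM2, ⟨?_, ?_⟩, ?_, ?_⟩
  · obtain ⟨K', -, hK'⟩ := Pool.Agent.R956.V1.P_rate S
    refine ⟨K', fun n hn => ?_⟩
    rw [hP, hP]
    exact hK' n hn
  · intro ε hε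
    filter_upwards [Pool.Agent.R956.V1.P_step S hε] with n hn
    rw [← hP, ← hP, ← hM] at hn
    have p0 := hpos n
    have p1 := hpos (n + 1)
    have hM0 : 0 < M L + ε := by rw [hM]; positivity
    refine ⟨p0, ?_, ?_⟩
    · rw [div_le_div_iff₀ hM0 p0]
      linarith [hn.2]
    · rw [div_le_iff₀ p0]
      exact hn.1
  · intro s hs hgap α hc
    simp only [hP] at hc ⊢
    have h1 := Pool.Agent.R956.V1.expo S hs hgap hc
    refine ⟨h1, ?_⟩
    have h2 := W.along Set.univ (fun n _ => Set.mem_univ _) α (by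
      rw [principal_univ, inf_top_eq]
      refine h1.congr fun n => ?_
      rw [← hP]
      rfl)
    rwa [principal_univ, inf_top_eq] at h2
  · intro s hs hgap α B hB hc
    simp only [hP] at hc
    constructor
    · intro ε hε
      filter_upwards [Pool.Agent.R956.V1.amp S hs hgap hB hc hε] with n hn
      rw [← hP, ← hM, div_div (a L n : ℝ)] at hn
      exact hn
    · intro hev
      obtain ⟨h1, h2⟩ := Pool.Agent.R956.V1.amp_even S hs hev hgap hB hc
      have key : ∀ (g : ℕ → ℝ) (D : ℝ), Tendsto (fun n : ℕ => g (2 * n)) atTop (𝓝 D) →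
          Tendsto g (atTop ⊓ 𝓟 {n | Even n}) (𝓝 D) := by
        intro g D hg
        rw [Metric.tendsto_nhds] at hg ⊢
        intro δ hδ
        rw [eventually_inf_principal]
        obtain ⟨N, hN⟩ := eventually_atTop.mp (hg δ hδ)
        filter_upwards [eventually_ge_atTop (2 * N)] with n hn he
        obtain ⟨j, hj⟩ := he
        have e : n = 2 * j := by omega
        rw [e]
        exact hN j (by omega)
      refine ⟨key _ _ ?_, key _ _ ?_⟩
      · simpa only [hP] using h1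
      · refine h2.congr fun n => ?_
        rw [div_div]

end Pool.Agent.Results.MP_8c6f77_pr.SparseLengths
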