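import Pool.Agent.R956.V2
import Pool.Agent.R956.K4
import Pool.Agent.R93.Dbl5

/-!
The non-intersection probability `P_n = a_{2n} / a_n²` of two `n`-step self-avoiding walks on the
square, the triangular and the honeycomb lattice: two-sided bounds along sets of lengths with gaps
`O(√n)`, and the asymptotic form in the mean over windows of length of order `√n`, hold along all
lengths (all even lengths), and give those of `a_n`.
-/

set_option autoImplicit false

namespace Pool.Agent.Results.MP_8c6f77_pr.WindowMeans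

open Filter Topology

/-- the three lattices -/
inductive Lattice where
  | square
  | triangular
  | honeycomb

/-- adjacency; the triangular lattice in a basis of unit vectors with angle `π/3`, the honeycomb
lattice as a brick wall -/
def Adj : Lattice → ℤ × ℤ → ℤ × ℤ → Prop
  | .square => fun p q => |p.1 - q.1| + |p.2 - q.2| = 1
  | .triangular => fun p q =>
      q - p ∈ ({(1, 0), (-1, 0), (0, 1), (0, -1), (1, -1), (-1, 1)} : Set (ℤ × ℤ))
  | .honeycomb => fun p q =>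
      q - p = (1, 0) ∨ q - p = (-1, 0) ∨
      (q - p = (0, 1) ∧ Even (p.1 + p.2)) ∨
      (q - p = (0, -1) ∧ Even (q.1 + q.2))

/-- the number of `n`-step self-avoiding walks from the origin -/
noncomputable def a (L : Lattice) (n : ℕ) : ℕ :=
  Set.ncard {f : Fin (n + 1) → ℤ × ℤ | f 0 = 0 ∧ Function.Injective f ∧
    ∀ i : Fin n, Adj L (f i.castSucc) (f i.succ)}

/-- the connective constant -/
noncomputable def mu (L : Lattice) : ℝ :=
  ⨅ n : {n : ℕ // 1 ≤ n}, ((a L n.1 : ℝ) ^ ((1 : ℝ) / (n.1 : ℝ)))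

/-- the non-intersection probability of two independent `n`-step walks, `a_{2n} / a_n²` -/
noncomputable def P (L : Lattice) (n : ℕ) : ℝ := (a L (2 * n) : ℝ) / (a L n : ℝ) ^ 2

/-- `a_n / (μ^n n^α)` -/
noncomputable def R (L : Lattice) (α : ℝ) (n : ℕ) : ℝ := (a L n : ℝ) / (mu L ^ n * (n : ℝ) ^ α)

/-- every long interval `[n, n + δ √n]` meets `S` -/
def Gaps (δ : ℝ) (S : Set ℕ) : Prop :=
  ∀ᶠ n : ℕ in atTop, ∃ m ∈ S, n ≤ m ∧ (m : ℝ) ≤ n + δ * Real.sqrt n

/-- the mean of `u` over the integers of `[n, n + δ √n]` -/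
noncomputable def mean (u : ℕ → ℝ) (δ : ℝ) (n : ℕ) : ℝ :=
  (∑ j ∈ Finset.range (⌊δ * √(n : ℝ)⌋₊ + 1), u (n + j)) / ((⌊δ * √(n : ℝ)⌋₊ : ℝ) + 1)

open Pool.Agent.R956 in
theorem facts (L : Lattice) : ∃ K β : ℝ,
    Pool.Agent.Y943.SL.Wk (fun n => (a L n : ℝ)) (mu L) ∧
    V1.Sq (fun n => (a L n : ℝ) / mu L ^ n) K β := by
  cases L with
  | square =>
    obtain ⟨h0, h1, h2, K, h⟩ := V2.sqr (a .square) (fun n => rfl) (mu .square) rfl
    exact ⟨K, 3 / mu .square,
      (Pool.Agent.Y943.SL.wk_sq (a .square) (fun n => rfl) (mu .square) rfl).1, h⟩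
  | triangular =>
    obtain ⟨K, h⟩ := V2.tri (a .triangular) (fun n => rfl) (mu .triangular) rfl
    exact ⟨K, 1,
      (Pool.Agent.Y943.SL.wk_tri (a .triangular) (fun n => rfl) (mu .triangular) rfl).1, h⟩
  | honeycomb =>
    obtain ⟨h0, h1, h2, K, h⟩ := V2.hex (a .honeycomb) (fun n => rfl) (mu .honeycomb) rfl
    exact ⟨K, 2 / mu .honeycomb,
      (Pool.Agent.Y943.SL.wk_hex (a .honeycomb) (fun n => rfl) (mu .honeycomb) rfl).1, h⟩

lemma R_eq (L : Lattice) (α : ℝ) (n : ℕ) : R L α n = (a L n : ℝ) / mu L ^ n / (n : ℝ) ^ α := by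
  unfold R
  rw [div_div]

lemma even_eq : {n : ℕ | Even n} = {n : ℕ | n % 2 = 0} := by
  ext n
  simp only [Set.mem_setOf_eq, Nat.even_iff]

/-- **Theorem.** Let `a_n` be the number of `n`-step self-avoiding walks from the origin on the
square, the triangular or the honeycomb lattice, `μ = inf a_n^(1/n)`, `P_n = a_{2n} / a_n²`.
(1) If `A ≤ P_n n^α ≤ B`, `A > 0`, for the large `n` in a set `S` (of any parities) which meets
`[n, n + δ √n]` for all large `n`, then `P_n n^α` and `a_n / (μ^n n^α)` lie between positive constants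
for all large `n`.
(2) If for each `δ > 0` the mean of `P_{2k} (2k)^α` over the integers `k` of `[m, m + δ √m]` tends to
`B > 0` as `m → ∞`, then `P_n n^α → B`, `a_n / (μ^n n^α) → 2^α / B` and
`(a_{n+2} / a_n - μ²) √n → 0` along all even `n`. -/
theorem result (L : Lattice) : 0 < mu L ∧
    (∀ (S : Set ℕ) (δ : ℝ), 0 < δ → Gaps δ S → ∀ α A B : ℝ, 0 < A →
      (∀ᶠ n : ℕ in atTop, n ∈ S → A ≤ P L n * (n : ℝ) ^ α ∧ P L n * (n : ℝ) ^ α ≤ B) →
      ∃ A' B' : ℝ, 0 < A' ∧ 0 < B' ∧ ∀ᶠ n : ℕ in atTop,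
        (A' ≤ P L n * (n : ℝ) ^ α ∧ P L n * (n : ℝ) ^ α ≤ B') ∧
        A' ≤ R L α n ∧ R L α n ≤ B') ∧
    (∀ α B : ℝ, 0 < B →
      (∀ δ : ℝ, 0 < δ → Tendsto (mean (fun k => P L (2 * k) * ((2 * k : ℕ) : ℝ) ^ α) δ) atTop
        (𝓝 B)) →
      Tendsto (fun n : ℕ => P L n * (n : ℝ) ^ α) (atTop ⊓ 𝓟 {n | Even n}) (𝓝 B) ∧
      Tendsto (R L α) (atTop ⊓ 𝓟 {n | Even n}) (𝓝 (2 ^ α / B)) ∧
      Tendsto (fun n : ℕ => ((a L (n + 2) : ℝ) / a L n - mu L ^ 2) * Real.sqrt n)
        (atTop ⊓ 𝓟 {n | Even n}) (𝓝 0)) := by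
  obtain ⟨K, β, W, S0⟩ := facts L
  have hs : Pool.Agent.R93.Dbl.Slow (fun n => (a L n : ℝ)) (mu L) :=
    Pool.Agent.R93.Dbl.slow_of_rate W (K := K) fun n hn => S0.rate n hn
  refine ⟨W.hμ, ?_, ?_⟩
  · intro S δ hδ hS α A B hA h
    simp only [R_eq]
    exact Pool.Agent.R93.Dbl.bounds W hs hδ hS hA h
  · intro α B hB h
    have hP : ∀ n, P L n = Pool.Agent.R956.V1.P (fun n => (a L n : ℝ) / mu L ^ n) n := by
      intro n
      unfold P Pool.Agent.R956.V1.P
      have hμ := W.hμ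
      have h1 : (0 : ℝ) < a L n := W.cpos n
      have h2 := pow_pos hμ n
      show (a L (2 * n) : ℝ) / (a L n : ℝ) ^ 2 = (a L (2 * n) : ℝ) / mu L ^ (2 * n) /
        ((a L n : ℝ) / mu L ^ n) ^ 2
      rw [show 2 * n = n + n by ring, pow_add]
      field_simp
    have hr : Tendsto (fun k : ℕ => P L (2 * (k + 1)) / P L (2 * k)) atTop (𝓝 1) := by
      obtain ⟨K', -, hK'⟩ := Pool.Agent.R956.V1.P_rate S0
      have t0 : Tendsto (fun k : ℕ => K' * Pool.Agent.R956.D2.f (2 * k)) atTop (𝓝 0) := by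
        have := (Pool.Agent.R956.D2.f_tendsto.comp Pool.Agent.R93.Dbl.two_tend).const_mul K'
        rw [mul_zero] at this
        exact this
      rw [tendsto_iff_norm_sub_tendsto_zero]
      refine squeeze_zero' (Eventually.of_forall fun n => norm_nonneg _) ?_ t0
      filter_upwards [eventually_ge_atTop 1] with k hk
      rw [Real.norm_eq_abs, show 2 * (k + 1) = 2 * k + 2 by ring, hP, hP]
      exact hK' (2 * k) (by omega)
    have h1 := Pool.Agent.R93.Dbl.form_mean W hs hr hB h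
    have h2 := Pool.Agent.R956.K3.ratio_form W (show 0 ≤ 1 by norm_num) (by positivity) h1
    rw [even_eq]
    have hR : R L α = fun n : ℕ => (a L n : ℝ) / mu L ^ n / (n : ℝ) ^ α := by
      funext n
      exact R_eq L α n
    refine ⟨?_, by rw [hR]; exact h1, h2⟩
    have t : Tendsto (fun n : ℕ => 2 * n) (atTop ⊓ 𝓟 {n | n % 2 = 0})
        (atTop ⊓ 𝓟 {n | n % 2 = 0}) := by
      refine tendsto_inf.mpr ⟨Pool.Agent.R93.Dbl.two_tend.mono_left inf_le_left, ?_⟩
      rw [tendsto_principal]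
      exact Eventually.of_forall fun n => by
        show 2 * n % 2 = 0
        omega
    have h3 := h1.comp t
    have h2a : (0 : ℝ) < 2 ^ α := by positivity
    have h4 := (h3.div (h1.pow 2) (by positivity)).mul_const ((2 : ℝ) ^ α)
    have e : 2 ^ α / B / (2 ^ α / B) ^ 2 * 2 ^ α = B := by
      field_simp
    rw [e] at h4
    refine h4.congr' ?_
    have : ∀ᶠ n : ℕ in atTop, 1 ≤ n := eventually_ge_atTop 1
    filter_upwards [this.filter_mono inf_le_left] with n hn
    exact (Pool.Agent.R93.Dbl.P_form W α hn).symm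

end Pool.Agent.Results.MP_8c6f77_pr.WindowMeans
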